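import Pool.Agent.LibF4858a.Main

/-!
# The comparison of effective cones fails for `Y = ℙ¹ × ℙⁿ⁻¹` in every positive dimension
-/

set_option autoImplicit false

namespace Pool.Agent.Results.MP_f4858a_ag.EffConeLefschetzFails

open Pool.Agent.LibF4858a

/-- **Main theorem.**  Let `Y = ℙ¹ × ℙⁿ⁻¹` and let `A = O(a,b)` be any ample divisor class on `Y`
(`a, b ≥ 1`).  Let `d ≥ 1` be such that `n ≤ d a + 1` (so all large `d` are allowed).  Then for a
general member `X` of `|dA|` and for *every* `k` with `1 ≤ k ≤ n - 1 = dim X`: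

* the subvariety `ℙ¹ × ℙᵏ⁻¹` of `Y` has class in `Eff_k(Y)`, but its class does not lie in the
  closed convex cone of `N_k(Y)` generated by the classes of the `k`-dimensional subvarieties of `Y`
  that are contained in `X`;
* the push-forward `i_* : N_k(X) → N_k(Y)` does not induce an isomorphism of effective cones. -/
theorem result (n a b d : ℕ) (_ha : 1 ≤ a) (hb : 1 ≤ b) (hd1 : 1 ≤ d) (hd : n ≤ d * a + 1) :
    HoldsForGeneralMember n (d * a) (d * b) (fun F => ∀ k : ℕ, 1 ≤ k → k ≤ n - 1 →
      cls Set.univ k (linSub n k) ∈ effCone k (Set.univ : Set (PP n)) ∧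
      cls Set.univ k (linSub n k) ∉ closedCone (classesIn k Set.univ (hypersurface F)) ∧
      ¬ InducesIsoOfEffectiveCones k (Set.subset_univ (hypersurface F))) := by
  have he : 1 ≤ d * b := Nat.mul_pos hd1 hb
  refine ⟨_, (mat n (d * a) (d * b) he).det, det_mat_isHomogeneous _ _ he,
    ⟨fermat n (d * a) (d * b), fermat_mem hd, ?_⟩, ?_⟩
  · rw [eval_det_mat, matVal_fermat, Matrix.det_one]
    exact one_ne_zero
  · intro F hF _ hG k hk1 hkn
    rw [eval_det_mat] at hG
    exact main_of_good hF (good_of_det_ne_zero he hF hG) hk1 (by omega)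

end Pool.Agent.Results.MP_f4858a_ag.EffConeLefschetzFails
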